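import Pool.Agent.Helper34.CP.Goals

/-! # MP_d97caa_an, packet CP-CUT: the spectral cut -/

set_option autoImplicit false

open scoped ComplexOrder

namespace Pool.Agent.Helper97.CP

open Pool.Agent.Helper39.Uct Pool.Agent.Helper10.Uct Pool.Agent.Helper34.CP

theorem cut : S_CUT := by
  intro B _ V hV hmul hstar c hc hc0 ε hε hε1
  let _ : PartialOrder B := CStarAlgebra.spectralOrder B
  have : StarOrderedRing B := CStarAlgebra.spectralOrderedRing B
  obtain ⟨a, ha⟩ : ∃ a, a = star c * c := ⟨_, rfl⟩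
  rw [← ha] at hc hc0 ⊢
  have hasa : IsSelfAdjoint a := ha ▸ IsSelfAdjoint.star_mul_self c
  have ha0 : 0 ≤ a := ha ▸ star_mul_self_nonneg c
  have hn : 0 < ‖a‖ := norm_pos_iff.2 hc0
  obtain ⟨r, hrdef⟩ : ∃ r, r = (1 - ε) * ‖a‖ := ⟨_, rfl⟩
  have hr : 0 < r := by
    rw [hrdef]
    exact mul_pos (by linarith) hn
  have hra : r < ‖a‖ := by
    rw [hrdef]
    nlinarith
  let G : ℝ → ℝ := fun t => max (t - r) 0
  let q : ℝ → ℝ := fun t => t / (max t r) ^ 2
  have hG : Continuous G := by fun_prop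
  have hG0 : G 0 = 0 := by
    show max (0 - r) 0 = 0
    exact max_eq_right (by linarith)
  have hmax : ∀ t, 0 < max t r := fun t => lt_of_lt_of_le hr (le_max_right _ _)
  have hq : Continuous q := by
    refine Continuous.div (by fun_prop) (by fun_prop) fun t => ?_
    exact (pow_pos (hmax t) 2).ne'
  have hq0 : q 0 = 0 := by
    show (0 : ℝ) / _ = 0
    exact zero_div _
  have hmem : ∀ f : ℝ → ℝ, cfcₙ f a ∈ V := by
    intro f
    have hcl : IsClosed ((subalg V hmul hstar : NonUnitalStarSubalgebra ℂ B) : Set B) := hV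
    have : cfcₙ f a ∈ subalg V hmul hstar :=
      cfcₙ_mem (𝕜 := ℝ) (𝕜' := ℂ) (s := subalg V hmul hstar) f
        (show a ∈ subalg V hmul hstar from hc)
    exact this
  have hid : cfcₙ (fun t : ℝ => t) a = a := cfcₙ_id' ℝ a hasa
  refine ⟨cfcₙ G a, hmem G, IsSelfAdjoint.cfcₙ, ?_, ?_⟩
  · intro h
    have h1 : cfcₙ G a = cfcₙ (fun _ : ℝ => (0 : ℝ)) a := by rw [h, cfcₙ_const_zero]
    rw [cfcₙ_eq_cfcₙ_iff_eqOn hasa (f := G) (g := fun _ : ℝ => (0 : ℝ)) (hf := hG.continuousOn)
      (hf0 := hG0) (hg := by fun_prop) (hg0 := rfl)] at h1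
    have h2 : ‖a‖ ≤ r := by
      conv_lhs => rw [← hid]
      refine norm_cfcₙ_le (fun t ht => ?_)
      have ht0 : 0 ≤ t := quasispectrum_nonneg_of_nonneg a ha0 t ht
      have h3 : max (t - r) 0 = 0 := h1 ht
      have h4 : t - r ≤ 0 := by
        rw [← h3]
        exact le_max_left _ _
      rw [Real.norm_eq_abs, abs_of_nonneg ht0]
      linarith
    linarith
  · intro z hz
    obtain ⟨b, hb⟩ : ∃ b, b = cfcₙ q a := ⟨_, rfl⟩
    have hbsa : star b = b := by
      rw [hb]
      exact IsSelfAdjoint.cfcₙ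
    have hba : cfcₙ (fun t : ℝ => q t * t) a = b * a := by
      rw [cfcₙ_mul q (fun t : ℝ => t) a hq.continuousOn hq0 (by fun_prop) rfl, hid, hb]
    have h1 : (b * a) * cfcₙ G a = cfcₙ G a := by
      rw [← hba, ← cfcₙ_mul (fun t : ℝ => q t * t) G a (by fun_prop) (by simp) hG.continuousOn hG0]
      refine cfcₙ_congr fun t _ => ?_
      show t / (max t r) ^ 2 * t * max (t - r) 0 = max (t - r) 0
      rcases le_total t r with h | h
      · rw [max_eq_right (by linarith : t - r ≤ 0), mul_zero]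
      · rw [max_eq_left h]
        have ht : 0 < t := lt_of_lt_of_le hr h
        have : t / t ^ 2 * t = 1 := by
          field_simp
        rw [this, one_mul]
    have h2 : ∀ w, b * (a * (cfcₙ G a * w)) = cfcₙ G a * w := by
      intro w
      rw [← mul_assoc, ← mul_assoc, h1]
    have h3 : b * (a * z) = z := by
      have hcl : IsClosed {z : B | b * (a * z) = z} :=
        isClosed_eq (by fun_prop) continuous_id
      have hsub : {z : B | ∃ w, z = cfcₙ G a * w} ⊆ {z : B | b * (a * z) = z} := by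
        rintro _ ⟨w, rfl⟩
        exact h2 w
      exact closure_minimal hsub hcl hz
    have h4 : ‖b * a * b‖ ≤ 1 / r := by
      have e : b * a * b = cfcₙ (fun t : ℝ => q t * t * q t) a := by
        rw [cfcₙ_mul (fun t : ℝ => q t * t) q a (by fun_prop) (by simp) hq.continuousOn hq0, hba,
          hb]
      rw [e]
      refine norm_cfcₙ_le (fun t ht => ?_)
      have ht0 : 0 ≤ t := quasispectrum_nonneg_of_nonneg a ha0 t ht
      show ‖t / (max t r) ^ 2 * t * (t / (max t r) ^ 2)‖ ≤ 1 / r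
      have hm := hmax t
      rw [Real.norm_eq_abs, abs_of_nonneg (by positivity)]
      have e2 : t / (max t r) ^ 2 * t * (t / (max t r) ^ 2) = t ^ 3 / (max t r) ^ 4 := by
        field_simp
      rw [e2, div_le_div_iff₀ (by positivity) hr, one_mul]
      have hm1 : t ≤ max t r := le_max_left _ _
      have hm2 : r ≤ max t r := le_max_right _ _
      calc t ^ 3 * r ≤ (max t r) ^ 3 * max t r := by gcongr
        _ = (max t r) ^ 4 := by ring
    have h5 : ‖b * star c‖ ^ 2 ≤ 1 / r := by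
      rw [sq, ← CStarRing.norm_self_mul_star, star_mul, star_star, hbsa]
      have : b * star c * (c * b) = b * a * b := by
        rw [ha]
        simp only [mul_assoc]
      rw [this]
      exact h4
    have h6 : z = (b * star c) * (c * z) := by
      conv_lhs => rw [← h3, ha]
      simp only [mul_assoc]
    have h7 : ‖c * z‖ ^ 2 = ‖star z * a * z‖ := by
      rw [sq, ← CStarRing.norm_star_mul_self, star_mul, ha]
      simp only [mul_assoc]
    have h8 : ‖z‖ ≤ ‖b * star c‖ * ‖c * z‖ := by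
      conv_lhs => rw [h6]
      exact norm_mul_le _ _
    have h9 : ‖z‖ ^ 2 ≤ 1 / r * ‖c * z‖ ^ 2 := by
      calc ‖z‖ ^ 2 ≤ (‖b * star c‖ * ‖c * z‖) ^ 2 := by gcongr
        _ = ‖b * star c‖ ^ 2 * ‖c * z‖ ^ 2 := by ring
        _ ≤ 1 / r * ‖c * z‖ ^ 2 := by gcongr
    rw [← hrdef, ← h7]
    calc r * ‖z‖ ^ 2 ≤ r * (1 / r * ‖c * z‖ ^ 2) := by gcongr
      _ = ‖c * z‖ ^ 2 := by field_simp

end Pool.Agent.Helper97.CP
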